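import Pool.Agent.Y545.Z702.Tor

/-!
# The 2-primary torsion of `y² = x (x + A) (x + B)` if no point of order two is a double
(helper999, for helper818; after `Pool.Agent.N873.UT.TO` of helper873)
-/

set_option autoImplicit false

namespace Pool.Agent.N999.IL

open WeierstrassCurve Pool.Agent.Y668 Pool.Agent.Y545.Z702

section

variable {A B : ℚ}

/-- the curve `y² = x (x + A) (x + B)` -/
abbrev EI (A B : ℚ) : WeierstrassCurve ℚ := Wt (A + B) (A * B)

lemma disc_ne (hAB : A ≠ B) : (A + B) ^ 2 - 4 * (A * B) ≠ 0 := by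
  have : (A + B) ^ 2 - 4 * (A * B) = (A - B) ^ 2 := by ring
  rw [this]
  exact pow_ne_zero 2 (sub_ne_zero.2 hAB)

/-- the point with abscissa `r` -/
noncomputable def P2 (hA : A ≠ 0) (hB : B ≠ 0) (hAB : A ≠ B) (r : ℚ)
    (h : (0 : ℚ) ^ 2 = r ^ 3 + (A + B) * r ^ 2 + A * B * r) :
    (EI A B).toAffine.Point := Affine.Point.some r 0 (ns_of (mul_ne_zero hA hB) (disc_ne hAB) h)

/-- the double of a point that is not killed by two -/
lemma dbl_x {x y : ℚ} (h : (EI A B).toAffine.Nonsingular x y) (hy : y ≠ 0) :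
    ∃ x' y' h', (Affine.Point.some x y h + .some x y h : (EI A B).toAffine.Point) =
      .some x' y' h' ∧ IsSquare (x' + A) := by
  have hneg : y ≠ (EI A B).toAffine.negY x y := by
    intro h1
    apply hy
    simp only [Affine.negY, Wt] at h1
    linarith
  rw [Affine.Point.add_self_of_Y_ne hneg]
  refine ⟨_, _, _, rfl, ?_⟩
  have q1 := Wt_eqn.mp h.1
  have h2y : 2 * y ≠ 0 := mul_ne_zero two_ne_zero hy
  set s := (EI A B).toAffine.slope x x y y with hs
  have hslope : s * (2 * y) = 3 * x ^ 2 + 2 * (A + B) * x + A * B := by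
    rw [hs, Affine.slope_of_Y_ne rfl hneg]
    simp only [Affine.negY, Wt]
    have e3' : y - (-y - 0 * x - 0) = 2 * y := by ring
    rw [e3', div_mul_cancel₀ _ h2y]
    ring
  have hX : (EI A B).toAffine.addX x x s = s ^ 2 - (A + B) - 2 * x := by
    simp only [Affine.addX, Wt]; ring
  rw [hX]
  refine ⟨(x ^ 2 + 2 * A * x + A * B) / (2 * y), ?_⟩
  have h5 : (s * (2 * y)) ^ 2 = (3 * x ^ 2 + 2 * (A + B) * x + A * B) ^ 2 := by rw [hslope]
  have key : (s ^ 2 - (A + B) - 2 * x + A) * (2 * y) ^ 2 = (x ^ 2 + 2 * A * x + A * B) ^ 2 := by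
    linear_combination h5 + (-4 * B - 8 * x) * q1
  field_simp
  linear_combination key

/-- if no point of order two is a double, then the order of a finite group of points is four times
an odd number -/
lemma four_odd (hA : A ≠ 0) (hB : B ≠ 0) (hAB : A ≠ B) (h0 : ¬ IsSquare A) (h1 : ¬ IsSquare (-A))
    (h2 : ¬ IsSquare (-B)) (hf : Finite (EI A B).toAffine.Point) :
    ∃ k : ℕ, Odd k ∧ Nat.card (EI A B).toAffine.Point = 4 * k := by
  classical
  have hC := mul_ne_zero hA hB
  have hnA : -A ≠ 0 := neg_ne_zero.2 hA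
  have hnB : -B ≠ 0 := neg_ne_zero.2 hB
  set T0 := P2 hA hB hAB 0 (by ring) with hT0
  set T1 := P2 hA hB hAB (-A) (by ring) with hT1
  set T2 := P2 hA hB hAB (-B) (by ring) with hT2
  let f : (EI A B).toAffine.Point →+ (EI A B).toAffine.Point := AddMonoidHom.id _ + AddMonoidHom.id _
  have hfa : ∀ Q, f Q = Q + Q := fun Q => rfl
  have hdbl : ∀ (r : ℚ) (h), P2 hA hB hAB r h + P2 hA hB hAB r h = 0 := by
    intro r h
    have h1 : P2 hA hB hAB r h = -P2 hA hB hAB r h := by
      unfold P2
      rw [Affine.Point.neg_some]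
      congr 1
      simp [Affine.negY, Wt]
    nth_rewrite 2 [h1]
    exact add_neg_cancel _
  have hker : (f.ker : Set (EI A B).toAffine.Point) = {0, T0, T1, T2} := by
    ext Q
    simp only [SetLike.mem_coe, AddMonoidHom.mem_ker, hfa, Set.mem_insert_iff,
      Set.mem_singleton_iff]
    constructor
    · intro h
      cases Q with
      | zero => left; rfl
      | some x y hn =>
        right
        have h1 : (Affine.Point.some x y hn : (EI A B).toAffine.Point) =
            -Affine.Point.some x y hn := eq_neg_of_add_eq_zero_left h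
        rw [Affine.Point.neg_some] at h1
        have h2 : y = (EI A B).toAffine.negY x y := by
          simpa using h1
        have h3 : y = 0 := by
          simp only [Affine.negY, Wt] at h2
          linarith
        subst h3
        have h4 := Wt_eqn.mp hn.1
        have h5 : x * ((x + A) * (x + B)) = 0 := by linear_combination -h4
        rcases mul_eq_zero.1 h5 with h6 | h6
        · left; subst h6; rfl
        · right
          rcases mul_eq_zero.1 h6 with h7 | h7
          · left
            have : x = -A := by linear_combination h7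
            subst this; rfl
          · right
            have : x = -B := by linear_combination h7
            subst this; rfl
    · rintro (rfl | rfl | rfl | rfl)
      · exact add_zero 0
      · exact hdbl _ _
      · exact hdbl _ _
      · exact hdbl _ _
  have hinj : ∀ (r r' : ℚ) (h h'), P2 hA hB hAB r h = P2 hA hB hAB r' h' → r = r' := by
    intro r r' h h' h1
    unfold P2 at h1
    injection h1
  have hne0 : ∀ (r : ℚ) (h), P2 hA hB hAB r h ≠ 0 := fun r h => Affine.Point.some_ne_zero _
  have hcard : Nat.card f.ker = 4 := by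
    have e : Nat.card f.ker = Nat.card (f.ker : Set (EI A B).toAffine.Point) := rfl
    rw [e, hker, Nat.card_coe_set_eq, Set.ncard_insert_of_notMem, Set.ncard_insert_of_notMem,
      Set.ncard_pair]
    · intro h
      have := hinj _ _ _ _ h
      apply hAB
      linear_combination -this
    · rintro (h | h)
      · have := hinj _ _ _ _ h
        exact hnA this.symm
      · have := hinj _ _ _ _ h
        exact hnB this.symm
    · rintro (h | h | h)
      · exact hne0 _ _ h.symm
      · exact hne0 _ _ h.symm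
      · exact hne0 _ _ h.symm
  -- the points of order two are not doubles
  have hnd : ∀ T ∈ f.ker, T ∈ f.range → T = 0 := by
    intro T hT hR
    obtain ⟨Q, hQ⟩ := hR
    rw [hfa] at hQ
    have hal := al_add (two_ne_zero (α := ℚ)) Q Q
    rw [hQ] at hal
    have hα : al (A + B) (A * B) Q ≠ 0 := al_ne hC Q
    have hsq : IsSquare (al (A + B) (A * B) T) := by
      obtain ⟨r, hr⟩ := hal
      refine ⟨r / al (A + B) (A * B) Q, ?_⟩
      field_simp
      linear_combination hr
    have hT' : T ∈ (f.ker : Set (EI A B).toAffine.Point) := hT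
    rw [hker] at hT'
    have hal2 : ∀ (r : ℚ) (h), r ≠ 0 → al (A + B) (A * B) (P2 hA hB hAB r h) = r := by
      intro r h hr
      unfold P2
      rw [al_some, if_neg hr]
    rcases hT' with h | h | h | h
    · exact h
    · exfalso
      cases Q with
      | zero =>
        have h1 : (0 : (EI A B).toAffine.Point) + 0 = T := hQ
        rw [add_zero, h] at h1
        exact hne0 _ _ h1.symm
      | some x y hn =>
        by_cases hy : y = 0
        · have h1 : (Affine.Point.some x y hn : (EI A B).toAffine.Point) + .some x y hn = 0 := by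
            subst hy
            refine Affine.Point.add_of_Y_eq rfl ?_
            simp [Affine.negY, Wt]
          rw [h1] at hQ
          rw [h] at hQ
          exact hne0 _ _ hQ.symm
        · obtain ⟨x', y', h', e1, e2⟩ := dbl_x hn hy
          rw [hQ, h] at e1
          rw [hT0] at e1
          unfold P2 at e1
          injection e1 with e3 e4
          rw [← e3, zero_add] at e2
          exact h0 e2
    · exfalso
      rw [h, hT1, hal2 _ _ hnA] at hsq
      exact h1 hsq
    · exfalso
      rw [h, hT2, hal2 _ _ hnB] at hsq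
      exact h2 hsq
  refine ⟨Nat.card f.range, ?_, ?_⟩
  · rw [← Nat.not_even_iff_odd]
    intro hev
    haveI : Finite f.range := inferInstance
    obtain ⟨x, hx⟩ := exists_prime_addOrderOf_dvd_card' (G := f.range) 2 hev.two_dvd
    have hx2 : (x : (EI A B).toAffine.Point) + x = 0 := by
      have h3 := addOrderOf_nsmul_eq_zero x
      rw [hx, two_nsmul] at h3
      exact congrArg Subtype.val h3
    have hx0 : (x : (EI A B).toAffine.Point) = 0 := hnd _ hx2 x.2
    have hx1 : x = 0 := Subtype.ext hx0
    rw [hx1, addOrderOf_zero] at hx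
    exact absurd hx (by norm_num)
  · have h1 := f.ker.card_mul_index
    rw [AddSubgroup.index_ker, hcard] at h1
    exact h1.symm

end

/-- a squarefree integer greater than `1` times a nonzero square is not a square -/
lemma ns_n {n : ℤ} (hn : Squarefree n) (h1 : 1 < n) {a : ℤ} (ha : a ≠ 0) :
    ¬ IsSquare ((n : ℚ) * (a : ℚ) ^ 2) := by
  rintro ⟨s, hs⟩
  have ha' : (a : ℚ) ≠ 0 := by exact_mod_cast ha
  have h2 : IsSquare (n : ℚ) := by
    refine ⟨s / a, ?_⟩
    field_simp
    linear_combination hs
  have h3 : IsSquare n := Rat.isSquare_intCast_iff.1 h2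
  obtain ⟨r, hr⟩ := h3
  have h4 : IsUnit r := hn r ⟨1, by rw [hr]; ring⟩
  rcases Int.isUnit_iff.1 h4 with h5 | h5
  · rw [h5] at hr; omega
  · rw [h5] at hr; omega

/-- the torsion of `y² = x (x - n a²) (x - n b²)` -/
theorem tor_EQ (n a b : ℤ) (hn : Squarefree n) (hn1 : 1 < n) (ha : a ≠ 0) (hb : b ≠ 0)
    (hab : a ^ 2 ≠ b ^ 2) (W : WeierstrassCurve ℚ)
    (hW : W = ((⟨0, -(n * (a ^ 2 + b ^ 2)), 0, n ^ 2 * a ^ 2 * b ^ 2, 0⟩ :
      WeierstrassCurve ℤ).map (Int.castRingHom ℚ)))
    (hf : Finite W.toAffine.Point) : ∃ k : ℕ, Odd k ∧ Nat.card W.toAffine.Point = 4 * k := by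
  obtain ⟨A, hA⟩ : ∃ A : ℚ, A = -((n : ℚ) * (a : ℚ) ^ 2) := ⟨_, rfl⟩
  obtain ⟨B, hB⟩ : ∃ B : ℚ, B = -((n : ℚ) * (b : ℚ) ^ 2) := ⟨_, rfl⟩
  have hn0 : (0 : ℚ) < n := by
    have : (0 : ℤ) < n := by omega
    exact_mod_cast this
  have ha' : (a : ℚ) ≠ 0 := by exact_mod_cast ha
  have hb' : (b : ℚ) ≠ 0 := by exact_mod_cast hb
  have hWE : W = EI A B := by
    rw [hW, hA, hB]
    ext <;> simp [Wt] <;> ring
  subst hWE
  refine four_odd ?_ ?_ ?_ ?_ ?_ ?_ hf
  · rw [hA]
    exact neg_ne_zero.2 (mul_ne_zero hn0.ne' (pow_ne_zero 2 ha'))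
  · rw [hB]
    exact neg_ne_zero.2 (mul_ne_zero hn0.ne' (pow_ne_zero 2 hb'))
  · rw [hA, hB]
    intro h
    apply hab
    have h1 : (n : ℚ) * ((a : ℚ) ^ 2 - (b : ℚ) ^ 2) = 0 := by linear_combination -h
    have h2 := (mul_eq_zero.1 h1).resolve_left hn0.ne'
    have h3 : (a : ℚ) ^ 2 = (b : ℚ) ^ 2 := by linear_combination h2
    exact_mod_cast h3
  · rintro ⟨r, hr⟩
    have h1 : 0 < (n : ℚ) * (a : ℚ) ^ 2 := by positivity
    nlinarith [mul_self_nonneg r]
  · rw [hA, neg_neg]
    exact ns_n hn hn1 ha
  · rw [hB, neg_neg]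
    exact ns_n hn hn1 hb

end Pool.Agent.N999.IL
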