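import Pool.Agent.N818.IL.Stm
import Pool.Agent.N999.IL.Tor

/-!
# Project IL (helper818), part IT (helper999)
-/

set_option autoImplicit false

namespace Pool.Agent.N999.IL

/-- part IT -/
theorem t_IT : Pool.Agent.N818.IL.S_IT := by
  intro n a b h1 h2 h3 h4 h5 h6
  exact tor_EQ n a b h1 h2 h3 h4 h5 _ rfl h6

end Pool.Agent.N999.IL
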